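import Pool.Agent.H13.EDM.Targets

/-!
# Row NUM of the board on mixed degrees: the choice of the scale
-/

set_option autoImplicit false

open Filter Topology
open Pool.Agent.H13.EDM

namespace Pool.Agent.H35.EDM

theorem ev_pow (a p q : ℝ) (hp : 0 ≤ p) (hpq : p < q) :
    ∀ᶠ m : ℕ in atTop, a * p ^ m ≤ q ^ m := by
  have hq : 0 < q := lt_of_le_of_lt hp hpq
  have h1 : Tendsto (fun m : ℕ => a * (p / q) ^ m) atTop (𝓝 (a * 0)) :=
    (tendsto_pow_atTop_nhds_zero_of_lt_one (div_nonneg hp hq.le)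
      ((div_lt_one hq).2 hpq)).const_mul a
  rw [mul_zero] at h1
  filter_upwards [h1.eventually (gt_mem_nhds one_pos)] with m hm
  have hqm : 0 < q ^ m := by positivity
  rw [div_pow, ← mul_div_assoc, div_lt_one hqm] at hm
  exact hm.le

theorem ev_eps (s t : ℝ) (n : ℕ) (h : s < t) :
    ∀ᶠ ε : ℝ in 𝓝[>] 0, s * (1 + ε) ^ n < t := by
  have hc : Tendsto (fun ε : ℝ => s * (1 + ε) ^ n) (𝓝 0) (𝓝 (s * (1 + 0) ^ n)) := by
    apply Continuous.tendsto
    fun_prop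
  have hc' := hc.mono_left (nhdsWithin_le_nhds (s := Set.Ioi 0))
  rw [add_zero, one_pow, mul_one] at hc'
  exact hc'.eventually (gt_mem_nhds h)

theorem pf_NUM (h1 : T_NU1) (h2 : T_NU2) (h3 : T_NU3) : T_NUM := by
  intro N δ w C D η μ μ' hN hC hD hη hδ hδ0 hlc hsub hw hlow hμ'0 hμμ' hμ1 hδ3 hinf c₀ Λ hc₀ hΛ
  have hC0 : 0 < C := by linarith
  obtain ⟨x, hx0, hxl, hxu⟩ := h1 (δ 1) C η hC0 hη (hδ 1 (by omega)) (hsub 1 (by omega))
    (hlow 1 (by omega))
  obtain ⟨y, hy0, hyl, hyu⟩ := h1 (δ 2) C η hC0 hη (hδ 2 (by omega)) (hsub 2 (by omega))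
    (hlow 2 (by omega))
  -- `μ ≤ x`
  have hμx : μ ≤ x := by
    by_contra hcon
    push Not at hcon
    obtain ⟨ε, he1, he0⟩ := ((ev_eps x μ 1 hcon).and self_mem_nhdsWithin).exists
    rw [pow_one] at he1
    have he0' : 0 < ε := he0
    obtain ⟨ma, hma⟩ := hxu ε he0'
    obtain ⟨mb, hmb⟩ := eventually_atTop.1 (ev_pow (2 * C) (x * (1 + ε)) μ (by positivity) he1)
    obtain ⟨m, hm, hmm⟩ := hinf (max ma mb)
    have e1 := hma m ((le_max_left _ _).trans hm)
    have e2 := hmb m ((le_max_right _ _).trans hm)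
    have e3 : C * δ 1 m ≤ C * (x * (1 + ε)) ^ m := mul_le_mul_of_nonneg_left e1 hC0.le
    have e4 : 0 < (x * (1 + ε)) ^ m := by positivity
    nlinarith [mul_pos hC0 e4]
  obtain ⟨μ₂, hμ₂⟩ : ∃ μ₂, μ₂ = (max μ' 1 + μ) / 2 := ⟨_, rfl⟩
  have hmax : max μ' 1 < μ := max_lt hμμ' hμ1
  have hμ₂a : max μ' 1 < μ₂ := by rw [hμ₂]; linarith
  have hμ₂b : μ₂ < x := by
    have : μ₂ < μ := by rw [hμ₂]; linarith
    linarith
  have hμ₂1 : 1 < μ₂ := lt_of_le_of_lt (le_max_right _ _) hμ₂a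
  have hμ₂' : μ' < μ₂ := lt_of_le_of_lt (le_max_left _ _) hμ₂a
  refine ⟨μ₂, hμ₂', hμ₂1, ?_⟩
  rw [← eventually_atTop (p := fun m => ∃ (i l₀ : ℕ) (ρ : ℝ), 1 ≤ i ∧ i ≤ 2 ∧
    1 ≤ l₀ ∧ 0 < ρ ∧
    Λ * (∑ j ∈ Finset.range N, (l₀ : ℝ) ^ (N - 1 - j) * w j m) * ρ ≤
      δ i (m + m) * (l₀ : ℝ) ^ (N - i) ∧
    8 * (l₀ : ℝ) ≤ ρ ^ 2 ∧ ρ ≤ c₀ * δ 1 m ∧ 2 * μ₂ ^ m ≤ ρ)]
  by_cases hcase : y < x ^ 2
  · -- case A
    obtain ⟨K, hK0, hK⟩ := h2 N C D hC hD hN
    obtain ⟨ε, ⟨he1, he2⟩, he0⟩ := (((ev_eps μ₂ x 1 hμ₂b).and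
      (ev_eps y (x ^ 2) 3 hcase)).and self_mem_nhdsWithin).exists
    have he0' : 0 < ε := he0
    rw [pow_one] at he1
    obtain ⟨a, ha⟩ : ∃ a, a = x / (1 + ε) := ⟨_, rfl⟩
    have ha0 : 0 < a := by rw [ha]; positivity
    have haμ : μ₂ < a := by
      rw [ha, lt_div_iff₀ (by positivity)]
      exact he1
    have hax : a ≤ x := by
      rw [ha]
      exact div_le_self hx0.le (by linarith)
    have hya : y * (1 + ε) < a ^ 2 := by
      rw [ha, div_pow, lt_div_iff₀ (by positivity)]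
      calc y * (1 + ε) * (1 + ε) ^ 2 = y * (1 + ε) ^ 3 := by ring
        _ < x ^ 2 := he2
    have hax2 : a * (x * (1 + ε)) = x ^ 2 := by
      rw [ha]
      field_simp
    have ha2 : 1 < a ^ 2 := by nlinarith
    obtain ⟨c₁, hc₁⟩ : ∃ c₁, c₁ = min (c₀ / C) (1 / (C * Λ * K)) := ⟨_, rfl⟩
    have hc₁0 : 0 < c₁ := by
      rw [hc₁]
      exact lt_min (by positivity) (by positivity)
    filter_upwards [eventually_atTop.2 (hxu ε he0'), eventually_atTop.2 (hyu ε he0'),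
      ev_pow (2 / c₁) μ₂ a (by linarith) haμ,
      ev_pow (16 * K / c₁ ^ 2) (y * (1 + ε)) (a ^ 2) (by positivity) hya,
      ev_pow (32 / c₁ ^ 2) 1 (a ^ 2) zero_le_one ha2] with m e1 e2 e3 e4 e5
    have hA := hδ 1 (by omega) m
    have hB := hδ 1 (by omega) (m + m)
    have hE := hδ 2 (by omega) m
    have ham : 0 < a ^ m := by positivity
    obtain ⟨l₀, hl₀⟩ : ∃ l₀ : ℕ, l₀ = ⌈K * δ 2 m⌉₊ + 1 := ⟨_, rfl⟩
    have hl1 : K * δ 2 m ≤ (l₀ : ℝ) := by
      rw [hl₀]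
      push_cast
      linarith [Nat.le_ceil (K * δ 2 m)]
    have hl2 : (l₀ : ℝ) ≤ K * δ 2 m + 2 := by
      rw [hl₀]
      push_cast
      have := Nat.ceil_lt_add_one (show 0 ≤ K * δ 2 m by positivity)
      linarith
    have hl3 : 1 ≤ l₀ := by omega
    obtain ⟨ρ, hρ⟩ : ∃ ρ, ρ = min (c₀ * δ 1 m) (δ 1 (m + m) / (Λ * K * δ 1 m)) := ⟨_, rfl⟩
    have hρlow : c₁ * a ^ m ≤ ρ := by
      rw [hρ]
      refine le_min ?_ ?_
      · have g1 : c₁ ≤ c₀ / C := by rw [hc₁]; exact min_le_left _ _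
        have g2 : a ^ m ≤ x ^ m := pow_le_pow_left₀ ha0.le hax m
        calc c₁ * a ^ m ≤ c₀ / C * (C * δ 1 m) :=
              mul_le_mul g1 (g2.trans (hxl m)) ham.le (by positivity)
          _ = c₀ * δ 1 m := by field_simp
      · have g1 : c₁ ≤ 1 / (C * Λ * K) := by rw [hc₁]; exact min_le_right _ _
        rw [le_div_iff₀ (by positivity)]
        have g2 : a ^ m * δ 1 m ≤ C * δ 1 (m + m) := by
          calc a ^ m * δ 1 m ≤ a ^ m * (x * (1 + ε)) ^ m :=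
                mul_le_mul_of_nonneg_left e1 ham.le
            _ = x ^ (m + m) := by
                rw [← mul_pow, hax2, ← pow_mul, two_mul]
            _ ≤ C * δ 1 (m + m) := hxl (m + m)
        calc c₁ * a ^ m * (Λ * K * δ 1 m) = c₁ * (Λ * K) * (a ^ m * δ 1 m) := by ring
          _ ≤ 1 / (C * Λ * K) * (Λ * K) * (C * δ 1 (m + m)) :=
              mul_le_mul (mul_le_mul_of_nonneg_right g1 (by positivity)) g2 (by positivity)
                (by positivity)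
          _ = δ 1 (m + m) := by field_simp
    have hρ0 : 0 < ρ := lt_of_lt_of_le (by positivity) hρlow
    refine ⟨1, l₀, ρ, le_rfl, by norm_num, hl3, hρ0, ?_, ?_, ?_, ?_⟩
    · have g1 := hK (fun j => δ j m) (fun j => w j m) (l₀ : ℝ) (fun j hj => hδ j hj m) (hδ0 m)
        (fun j hj => hlc j m hj) (fun j hj => hw j hj m) hl1 (by exact_mod_cast hl3)
      have g2 : ρ ≤ δ 1 (m + m) / (Λ * K * δ 1 m) := by rw [hρ]; exact min_le_right _ _
      rw [le_div_iff₀ (by positivity)] at g2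
      have g3 : 0 ≤ (l₀ : ℝ) ^ (N - 1) := by positivity
      calc Λ * (∑ j ∈ Finset.range N, (l₀ : ℝ) ^ (N - 1 - j) * w j m) * ρ
          ≤ Λ * (K * ((l₀ : ℝ) ^ (N - 1) * δ 1 m)) * ρ :=
            mul_le_mul_of_nonneg_right (mul_le_mul_of_nonneg_left g1 hΛ.le) hρ0.le
        _ = (ρ * (Λ * K * δ 1 m)) * (l₀ : ℝ) ^ (N - 1) := by ring
        _ ≤ δ 1 (m + m) * (l₀ : ℝ) ^ (N - 1) := mul_le_mul_of_nonneg_right g2 g3
    · have g1 : (c₁ * a ^ m) ^ 2 ≤ ρ ^ 2 := pow_le_pow_left₀ (by positivity) hρlow 2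
      have g2 : (c₁ * a ^ m) ^ 2 = c₁ ^ 2 * (a ^ 2) ^ m := by
        rw [mul_pow, ← pow_mul, ← pow_mul, mul_comm m 2]
      have g3 : 8 * (K * (y * (1 + ε)) ^ m) ≤ c₁ ^ 2 / 2 * (a ^ 2) ^ m := by
        have := mul_le_mul_of_nonneg_left e4 (show 0 ≤ c₁ ^ 2 / 2 by positivity)
        refine le_trans (le_of_eq ?_) this
        field_simp
        ring
      have g4 : 16 ≤ c₁ ^ 2 / 2 * (a ^ 2) ^ m := by
        have := mul_le_mul_of_nonneg_left e5 (show 0 ≤ c₁ ^ 2 / 2 by positivity)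
        refine le_trans (le_of_eq ?_) this
        rw [one_pow]
        field_simp
        ring
      have g5 : K * δ 2 m ≤ K * (y * (1 + ε)) ^ m := mul_le_mul_of_nonneg_left e2 hK0.le
      rw [g2] at g1
      linarith
    · rw [hρ]
      exact min_le_left _ _
    · refine le_trans ?_ hρlow
      have := mul_le_mul_of_nonneg_left e3 hc₁0.le
      refine le_trans (le_of_eq ?_) this
      field_simp
  · -- case B
    push Not at hcase
    obtain ⟨K, hK0, hK⟩ := h3 N C D hC hD hN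
    obtain ⟨ε, he1, he0⟩ := ((ev_eps μ₂ x 2 hμ₂b).and self_mem_nhdsWithin).exists
    have he0' : 0 < ε := he0
    have hx1 : 1 < x := by linarith
    have hy1 : 1 < y := by nlinarith
    obtain ⟨a, ha⟩ : ∃ a, a = x / (1 + ε) ^ 2 := ⟨_, rfl⟩
    have ha0 : 0 < a := by rw [ha]; positivity
    have haμ : μ₂ < a := by
      rw [ha, lt_div_iff₀ (by positivity)]
      exact he1
    have hax : a ≤ x := by
      rw [ha]
      exact div_le_self hx0.le (one_le_pow₀ (by linarith))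
    have hax2 : a * ((x * (1 + ε)) * (y * (1 + ε))) ≤ y ^ 2 := by
      have : a * ((x * (1 + ε)) * (y * (1 + ε))) = x ^ 2 * y := by
        rw [ha]
        field_simp
      rw [this, sq y]
      exact mul_le_mul_of_nonneg_right hcase hy0.le
    have ha2 : 1 < a ^ 2 := by nlinarith
    obtain ⟨c₁, hc₁⟩ : ∃ c₁, c₁ = min (c₀ / C) (1 / (C * Λ * K)) := ⟨_, rfl⟩
    have hc₁0 : 0 < c₁ := by
      rw [hc₁]
      exact lt_min (by positivity) (by positivity)
    filter_upwards [eventually_atTop.2 (hxu ε he0'), eventually_atTop.2 (hyu ε he0'),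
      ev_pow (2 / c₁) μ₂ a (by linarith) haμ,
      ev_pow (8 / c₁ ^ 2) 1 (a ^ 2) zero_le_one ha2,
      ev_pow (C * D) 1 y zero_le_one hy1,
      ev_pow (C * C) μ' x hμ'0 (by linarith)] with m e1 e2 e3 e4 e5 e6
    have hA := hδ 1 (by omega) m
    have hB := hδ 2 (by omega) (m + m)
    have hE := hδ 2 (by omega) m
    have ham : 0 < a ^ m := by positivity
    obtain ⟨ρ, hρ⟩ : ∃ ρ, ρ = min (c₀ * δ 1 m) (δ 2 (m + m) / (Λ * K * (δ 1 m * δ 2 m))) :=
      ⟨_, rfl⟩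
    have hρlow : c₁ * a ^ m ≤ ρ := by
      rw [hρ]
      refine le_min ?_ ?_
      · have g1 : c₁ ≤ c₀ / C := by rw [hc₁]; exact min_le_left _ _
        have g2 : a ^ m ≤ x ^ m := pow_le_pow_left₀ ha0.le hax m
        calc c₁ * a ^ m ≤ c₀ / C * (C * δ 1 m) :=
              mul_le_mul g1 (g2.trans (hxl m)) ham.le (by positivity)
          _ = c₀ * δ 1 m := by field_simp
      · have g1 : c₁ ≤ 1 / (C * Λ * K) := by rw [hc₁]; exact min_le_right _ _
        rw [le_div_iff₀ (by positivity)]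
        have g2 : a ^ m * (δ 1 m * δ 2 m) ≤ C * δ 2 (m + m) := by
          calc a ^ m * (δ 1 m * δ 2 m) ≤ a ^ m * ((x * (1 + ε)) ^ m * (y * (1 + ε)) ^ m) :=
                mul_le_mul_of_nonneg_left (mul_le_mul e1 e2 hE.le (by positivity)) ham.le
            _ = (a * ((x * (1 + ε)) * (y * (1 + ε)))) ^ m := by
                rw [← mul_pow, ← mul_pow]
            _ ≤ (y ^ 2) ^ m := pow_le_pow_left₀ (by positivity) hax2 m
            _ = y ^ (m + m) := by rw [← pow_mul, two_mul]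
            _ ≤ C * δ 2 (m + m) := hyl (m + m)
        calc c₁ * a ^ m * (Λ * K * (δ 1 m * δ 2 m)) =
              c₁ * (Λ * K) * (a ^ m * (δ 1 m * δ 2 m)) := by ring
          _ ≤ 1 / (C * Λ * K) * (Λ * K) * (C * δ 2 (m + m)) :=
              mul_le_mul (mul_le_mul_of_nonneg_right g1 (by positivity)) g2 (by positivity)
                (by positivity)
          _ = δ 2 (m + m) := by field_simp
    have hρ0 : 0 < ρ := lt_of_lt_of_le (by positivity) hρlow
    refine ⟨2, 1, ρ, by norm_num, le_rfl, le_rfl, hρ0, ?_, ?_, ?_, ?_⟩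
    · have hD2 : D ≤ δ 2 m := by
        rw [one_pow, mul_one] at e5
        have := e5.trans (hyl m)
        exact le_of_mul_le_mul_left this hC0
      have h31 : δ 3 m ≤ δ 1 m := by
        have g1 : C * (C * μ' ^ m) ≤ C * δ 1 m := by
          refine le_trans (le_of_eq ?_) (e6.trans (hxl m))
          ring
        exact (hδ3 m).trans (le_of_mul_le_mul_left g1 hC0)
      have g1 := hK (fun j => δ j m) (fun j => w j m) (fun j hj => hδ j hj m) (hδ0 m)
        (fun j hj => hlc j m hj) (fun j hj => hw j hj m) hD2 h31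
      have g2 : ρ ≤ δ 2 (m + m) / (Λ * K * (δ 1 m * δ 2 m)) := by rw [hρ]; exact min_le_right _ _
      rw [le_div_iff₀ (by positivity)] at g2
      simp only [Nat.cast_one, one_pow, one_mul, mul_one]
      calc Λ * (∑ j ∈ Finset.range N, w j m) * ρ ≤ Λ * (K * (δ 1 m * δ 2 m)) * ρ :=
            mul_le_mul_of_nonneg_right (mul_le_mul_of_nonneg_left g1 hΛ.le) hρ0.le
        _ = ρ * (Λ * K * (δ 1 m * δ 2 m)) := by ring
        _ ≤ δ 2 (m + m) := g2
    · have g1 : (c₁ * a ^ m) ^ 2 ≤ ρ ^ 2 := pow_le_pow_left₀ (by positivity) hρlow 2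
      have g2 : (c₁ * a ^ m) ^ 2 = c₁ ^ 2 * (a ^ 2) ^ m := by
        rw [mul_pow, ← pow_mul, ← pow_mul, mul_comm m 2]
      have g4 : 8 ≤ c₁ ^ 2 * (a ^ 2) ^ m := by
        have := mul_le_mul_of_nonneg_left e4 (show 0 ≤ c₁ ^ 2 by positivity)
        refine le_trans (le_of_eq ?_) this
        rw [one_pow]
        field_simp
      rw [g2] at g1
      push_cast
      linarith
    · rw [hρ]
      exact min_le_left _ _
    · refine le_trans ?_ hρlow
      have := mul_le_mul_of_nonneg_left e3 hc₁0.le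
      refine le_trans (le_of_eq ?_) this
      field_simp

end Pool.Agent.H35.EDM
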